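import Mathlib

set_option autoImplicit false

/-!
# Hyperplane zero sets in wedges: the construction for an arbitrary orthonormal pair

`e₀, e₁` is an orthonormal pair in a complex inner product space, `s > 0` is a real number.
-/

namespace Pool.Agent.Work.MP_90924b_an

open scoped ComplexConjugate

noncomputable section

variable {E : Type*} [NormedAddCommGroup E] [InnerProductSpace ℂ E]

/-- The point `(|l|^2 e₀ + l e₁) / (1 + |l|^2)` attached to the hyperplane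
`(z, e₁) = l (1 - (z, e₀))` through the boundary point `e₀`. -/
def pt (e₀ e₁ : E) (l : ℂ) : E :=
  (((‖l‖ ^ 2 / (1 + ‖l‖ ^ 2) : ℝ)) : ℂ) • e₀ + (l / ((1 + ‖l‖ ^ 2 : ℝ) : ℂ)) • e₁

/-- The bounded holomorphic function. -/
def fw (e₀ e₁ : E) (s : ℝ) (z : E) : ℂ :=
  Complex.cos (((s : ℂ) * (inner ℂ e₁ z / (1 - inner ℂ e₀ z))) ^ 2) *
    Complex.exp (-((s : ℂ) ^ 2 * ((1 + inner ℂ e₀ z) / (1 - inner ℂ e₀ z))))

/-- The parameters of the hyperplanes: square roots of the zeros of the cosine, over `s`. -/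
def Lam (s : ℝ) : Set ℂ := {l | ∃ k : ℤ, ((s : ℂ) * l) ^ 2 = (2 * k + 1) * Real.pi / 2}

variable {e₀ e₁ : E} {s : ℝ}

lemma pos_aux (l : ℂ) : 0 < 1 + ‖l‖ ^ 2 := by positivity

lemma inner_self_one {e : E} (h : ‖e‖ = 1) : inner ℂ e e = 1 := by
  rw [inner_self_eq_norm_sq_to_K, h]
  simp

lemma inner_zero_pt (h0 : ‖e₀‖ = 1) (h01 : inner ℂ e₀ e₁ = 0) (l : ℂ) :
    inner ℂ e₀ (pt e₀ e₁ l) = ((‖l‖ ^ 2 / (1 + ‖l‖ ^ 2) : ℝ) : ℂ) := by
  rw [pt, inner_add_right, inner_smul_right, inner_smul_right, inner_self_one h0, h01]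
  ring

lemma inner_pt (l : ℂ) (z : E) : inner ℂ (pt e₀ e₁ l) z =
    (((‖l‖ ^ 2 : ℝ) : ℂ) * inner ℂ e₀ z + conj l * inner ℂ e₁ z) / ((1 + ‖l‖ ^ 2 : ℝ) : ℂ) := by
  have h' : ((1 + ‖l‖ ^ 2 : ℝ) : ℂ) ≠ 0 := by exact_mod_cast (pos_aux l).ne'
  rw [pt, inner_add_left, inner_smul_left, inner_smul_left, Complex.conj_ofReal, map_div₀,
    Complex.conj_ofReal, Complex.ofReal_div]
  field_simp

lemma norm_pt_sq (h0 : ‖e₀‖ = 1) (h1 : ‖e₁‖ = 1) (h01 : inner ℂ e₀ e₁ = 0) (l : ℂ) :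
    ‖pt e₀ e₁ l‖ ^ 2 = ‖l‖ ^ 2 / (1 + ‖l‖ ^ 2) := by
  have h := pos_aux l
  have e1 : inner ℂ ((((‖l‖ ^ 2 / (1 + ‖l‖ ^ 2) : ℝ)) : ℂ) • e₀)
      ((l / ((1 + ‖l‖ ^ 2 : ℝ) : ℂ)) • e₁) = 0 := by
    rw [inner_smul_left, inner_smul_right, h01]
    simp
  have e2 := norm_add_sq_eq_norm_sq_add_norm_sq_of_inner_eq_zero _ _ e1
  rw [pt, sq, e2, norm_smul, norm_smul, h0, h1, Complex.norm_real, Real.norm_eq_abs,
    abs_of_nonneg (by positivity), norm_div, Complex.norm_real, Real.norm_eq_abs, abs_of_pos h]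
  field_simp
  ring

lemma one_sub_norm_pt_sq (h0 : ‖e₀‖ = 1) (h1 : ‖e₁‖ = 1) (h01 : inner ℂ e₀ e₁ = 0) (l : ℂ) :
    1 - ‖pt e₀ e₁ l‖ ^ 2 = 1 / (1 + ‖l‖ ^ 2) := by
  have h := pos_aux l
  rw [norm_pt_sq h0 h1 h01]
  field_simp
  ring

lemma norm_cos_le (w : ℂ) : ‖Complex.cos w‖ ≤ Real.exp ‖w‖ := by
  rw [Complex.cos, norm_div]
  have h1 : ‖Complex.exp (w * Complex.I)‖ ≤ Real.exp ‖w‖ := by
    refine (Complex.norm_exp_le_exp_norm _).trans ?_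
    simp
  have h2 : ‖Complex.exp (-w * Complex.I)‖ ≤ Real.exp ‖w‖ := by
    refine (Complex.norm_exp_le_exp_norm _).trans ?_
    simp
  have h3 := norm_add_le (Complex.exp (w * Complex.I)) (Complex.exp (-w * Complex.I))
  have h4 : ‖(2 : ℂ)‖ = 2 := by simp
  rw [h4, div_le_iff₀ (by norm_num)]
  linarith

lemma ball_mem (h0 : ‖e₀‖ = 1) (h1 : ‖e₁‖ = 1) (h01 : inner ℂ e₀ e₁ = 0) {z : E}
    (hz : z ∈ Metric.ball (0 : E) 1) : ‖inner ℂ e₀ z‖ ^ 2 + ‖inner ℂ e₁ z‖ ^ 2 < 1 := by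
  rw [mem_ball_zero_iff] at hz
  have hz2 : ‖z‖ ^ 2 < 1 := by nlinarith [norm_nonneg z]
  have ho : Orthonormal ℂ ![e₀, e₁] := by
    rw [orthonormal_vecCons_iff]
    refine ⟨h0, ?_, ?_⟩
    · intro i
      fin_cases i
      exact h01
    · rw [orthonormal_vecCons_iff]
      refine ⟨h1, fun i => i.elim0, ?_⟩
      exact ⟨fun i => i.elim0, fun i => i.elim0⟩
  have h2 := ho.sum_inner_products_le (x := z) (s := Finset.univ)
  rw [Fin.sum_univ_two] at h2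
  exact lt_of_le_of_lt h2 hz2

lemma one_sub_ne (h0 : ‖e₀‖ = 1) (h1 : ‖e₁‖ = 1) (h01 : inner ℂ e₀ e₁ = 0) {z : E}
    (hz : z ∈ Metric.ball (0 : E) 1) : (1 : ℂ) - inner ℂ e₀ z ≠ 0 := by
  intro h
  have h2 : inner ℂ e₀ z = 1 := by linear_combination -h
  have := ball_mem h0 h1 h01 hz
  rw [h2] at this
  simp at this
  nlinarith [norm_nonneg (inner ℂ e₁ z)]

lemma fw_bound (h0 : ‖e₀‖ = 1) (h1 : ‖e₁‖ = 1) (h01 : inner ℂ e₀ e₁ = 0) {z : E}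
    (hz : z ∈ Metric.ball (0 : E) 1) : ‖fw e₀ e₁ s z‖ ≤ 1 := by
  have hb := ball_mem h0 h1 h01 hz
  have hne := one_sub_ne h0 h1 h01 hz
  rw [fw]
  set u := inner ℂ e₀ z with hu
  set v := inner ℂ e₁ z with hv
  rw [norm_mul, Complex.norm_exp]
  have hpos : 0 < ‖1 - u‖ ^ 2 := by positivity
  have hre : ((1 + u) / (1 - u)).re = (1 - ‖u‖ ^ 2) / ‖1 - u‖ ^ 2 := by
    rw [Complex.div_re, ← Complex.normSq_eq_norm_sq, ← Complex.normSq_eq_norm_sq]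
    have hn : Complex.normSq (1 - u) ≠ 0 := by
      simpa [Complex.normSq_eq_zero] using hne
    field_simp
    simp [Complex.normSq_apply]
    ring
  have hre2 : (((s : ℂ) ^ 2) * ((1 + u) / (1 - u))).re =
      s ^ 2 * ((1 - ‖u‖ ^ 2) / ‖1 - u‖ ^ 2) := by
    rw [← Complex.ofReal_pow, Complex.re_ofReal_mul, hre]
  have h3 := norm_cos_le (((s : ℂ) * (v / (1 - u))) ^ 2)
  have h2 : ‖((s : ℂ) * (v / (1 - u))) ^ 2‖ = s ^ 2 * (‖v‖ ^ 2 / ‖1 - u‖ ^ 2) := by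
    rw [norm_pow, norm_mul, norm_div, mul_pow, div_pow, Complex.norm_real, Real.norm_eq_abs,
      sq_abs]
  rw [h2] at h3
  rw [Complex.neg_re, hre2]
  calc ‖Complex.cos (((s : ℂ) * (v / (1 - u))) ^ 2)‖ *
        Real.exp (-(s ^ 2 * ((1 - ‖u‖ ^ 2) / ‖1 - u‖ ^ 2)))
      ≤ Real.exp (s ^ 2 * (‖v‖ ^ 2 / ‖1 - u‖ ^ 2)) *
          Real.exp (-(s ^ 2 * ((1 - ‖u‖ ^ 2) / ‖1 - u‖ ^ 2))) := by
        gcongr
    _ = Real.exp (s ^ 2 * ((‖u‖ ^ 2 + ‖v‖ ^ 2 - 1) / ‖1 - u‖ ^ 2)) := by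
        rw [← Real.exp_add]
        congr 1
        field_simp
        ring
    _ ≤ Real.exp 0 := by
        apply Real.exp_le_exp.mpr
        apply mul_nonpos_of_nonneg_of_nonpos (sq_nonneg s)
        apply div_nonpos_of_nonpos_of_nonneg
        · linarith
        · exact hpos.le
    _ = 1 := Real.exp_zero

lemma Lam_norm {l : ℂ} (hl : l ∈ Lam s) : 1 ≤ s ^ 2 * ‖l‖ ^ 2 := by
  obtain ⟨k, hk⟩ := hl
  have h1 : s ^ 2 * ‖l‖ ^ 2 = ‖((s : ℂ) * l) ^ 2‖ := by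
    rw [norm_pow, norm_mul, mul_pow, Complex.norm_real, Real.norm_eq_abs, sq_abs]
  rw [h1, hk]
  have h2 : ((2 * (k : ℂ) + 1) * Real.pi / 2) = (((2 * k + 1 : ℤ) : ℝ) * Real.pi / 2 : ℝ) := by
    push_cast
    ring
  rw [h2, Complex.norm_real, Real.norm_eq_abs, abs_div, abs_mul]
  have h3 : (1 : ℝ) ≤ |((2 * k + 1 : ℤ) : ℝ)| := by
    rw [← Int.cast_abs]
    have : (1 : ℤ) ≤ |2 * k + 1| := Int.one_le_abs (by omega)
    exact_mod_cast this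
  have h4 : |Real.pi| = Real.pi := abs_of_pos Real.pi_pos
  have h5 : |(2 : ℝ)| = 2 := by norm_num
  rw [h4, h5]
  have h6 := Real.pi_gt_three
  nlinarith

lemma Lam_ne_zero {l : ℂ} (hl : l ∈ Lam s) : l ≠ 0 := by
  intro h
  have := Lam_norm hl
  rw [h] at this
  norm_num at this

lemma Lam_countable (hs : 0 < s) : (Lam s).Countable := by
  have : Lam s = ⋃ k : ℤ, {l : ℂ | ((s : ℂ) * l) ^ 2 = (2 * k + 1) * Real.pi / 2} := by
    ext l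
    simp [Lam]
  rw [this]
  apply Set.countable_iUnion
  intro k
  apply Set.Finite.countable
  have hs' : (s : ℂ) ≠ 0 := by exact_mod_cast hs.ne'
  by_cases h : ∃ m : ℂ, ((s : ℂ) * m) ^ 2 = (2 * k + 1) * Real.pi / 2
  · obtain ⟨m, hm⟩ := h
    apply Set.Finite.subset (Set.toFinite {m, -m})
    intro l hl
    simp only [Set.mem_ofPred_eq] at hl
    rw [← hm] at hl
    rcases sq_eq_sq_iff_eq_or_eq_neg.mp hl with h | h
    · left
      exact mul_left_cancel₀ hs' h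
    · right
      apply mul_left_cancel₀ hs'
      rw [h]
      ring
  · push Not at h
    apply Set.Finite.subset Set.finite_empty
    intro l hl
    exact (h l hl).elim

/-- The real positive square root of the `k`-th positive zero of the cosine, over `s`. -/
def root (s : ℝ) (k : ℕ) : ℂ := ((Real.sqrt ((2 * k + 1) * Real.pi / 2) / s : ℝ) : ℂ)

lemma root_norm_sq (k : ℕ) : ‖root s k‖ ^ 2 = (2 * k + 1) * Real.pi / 2 / s ^ 2 := by
  have h : 0 ≤ (2 * (k : ℝ) + 1) * Real.pi / 2 := by positivity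
  rw [root, Complex.norm_real, Real.norm_eq_abs, sq_abs, div_pow, Real.sq_sqrt h]

lemma root_mem (hs : 0 < s) (k : ℕ) : root s k ∈ Lam s := by
  refine ⟨k, ?_⟩
  have h : 0 ≤ (2 * (k : ℝ) + 1) * Real.pi / 2 := by positivity
  rw [root, ← Complex.ofReal_mul, mul_div_cancel₀ _ hs.ne', ← Complex.ofReal_pow,
    Real.sq_sqrt h]
  push_cast
  ring

lemma mem_T_iff (h0 : ‖e₀‖ = 1) (h1 : ‖e₁‖ = 1) (h01 : inner ℂ e₀ e₁ = 0) {l : ℂ} (hl : l ≠ 0)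
    {z : E} (hz : (1 : ℂ) - inner ℂ e₀ z ≠ 0) :
    inner ℂ (pt e₀ e₁ l) z = (((‖pt e₀ e₁ l‖ ^ 2 : ℝ)) : ℂ) ↔
      inner ℂ e₁ z / (1 - inner ℂ e₀ z) = l := by
  have h := pos_aux l
  have h' : ((1 + ‖l‖ ^ 2 : ℝ) : ℂ) ≠ 0 := by exact_mod_cast h.ne'
  rw [inner_pt, norm_pt_sq h0 h1 h01, Complex.ofReal_div, div_left_inj' h']
  have h2 : (((‖l‖ ^ 2 : ℝ)) : ℂ) = conj l * l := by
    rw [← Complex.normSq_eq_norm_sq, Complex.normSq_eq_conj_mul_self]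
  have h3 : conj l ≠ 0 := by simpa using hl
  rw [h2, div_eq_iff hz]
  constructor
  · intro h4
    apply mul_left_cancel₀ h3
    linear_combination h4
  · intro h4
    rw [h4]
    ring

lemma zero_iff (h0 : ‖e₀‖ = 1) (h1 : ‖e₁‖ = 1) (h01 : inner ℂ e₀ e₁ = 0) {z : E}
    (hz : z ∈ Metric.ball (0 : E) 1) : fw e₀ e₁ s z = 0 ↔
      ∃ a ∈ pt e₀ e₁ '' Lam s, inner ℂ a z = (((‖a‖ ^ 2 : ℝ)) : ℂ) := by
  have hne := one_sub_ne h0 h1 h01 hz
  rw [fw, mul_eq_zero, or_iff_left (Complex.exp_ne_zero _), Complex.cos_eq_zero_iff]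
  constructor
  · rintro ⟨k, hk⟩
    have hm : (inner ℂ e₁ z / (1 - inner ℂ e₀ z)) ∈ Lam s := ⟨k, hk⟩
    refine ⟨pt e₀ e₁ (inner ℂ e₁ z / (1 - inner ℂ e₀ z)), ⟨_, hm, rfl⟩, ?_⟩
    rw [mem_T_iff h0 h1 h01 (Lam_ne_zero hm) hne]
  · rintro ⟨_, ⟨l, hl, rfl⟩, h⟩
    rw [mem_T_iff h0 h1 h01 (Lam_ne_zero hl) hne] at h
    rw [h]
    exact hl

lemma fw_diff (h0 : ‖e₀‖ = 1) (h1 : ‖e₁‖ = 1) (h01 : inner ℂ e₀ e₁ = 0) :
    DifferentiableOn ℂ (fw e₀ e₁ s) (Metric.ball (0 : E) 1) := by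
  intro z hz
  apply DifferentiableAt.differentiableWithinAt
  have hne := one_sub_ne h0 h1 h01 hz
  have d0 : DifferentiableAt ℂ (fun z : E => inner ℂ e₀ z) z :=
    (innerSL ℂ e₀).differentiableAt
  have d1 : DifferentiableAt ℂ (fun z : E => inner ℂ e₁ z) z :=
    (innerSL ℂ e₁).differentiableAt
  have e0 : DifferentiableAt ℂ (fun z : E => 1 - inner ℂ e₀ z) z := d0.const_sub 1
  have e1 : DifferentiableAt ℂ (fun z : E => 1 + inner ℂ e₀ z) z := d0.const_add 1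
  have e2 : DifferentiableAt ℂ (fun z : E => (1 - inner ℂ e₀ z)⁻¹) z := e0.fun_inv hne
  have e3 : DifferentiableAt ℂ
      (fun z : E => (s : ℂ) * (inner ℂ e₁ z / (1 - inner ℂ e₀ z))) z := by
    simp only [div_eq_mul_inv]
    exact (d1.fun_mul e2).const_mul _
  have e4 : DifferentiableAt ℂ
      (fun z : E => (s : ℂ) ^ 2 * ((1 + inner ℂ e₀ z) / (1 - inner ℂ e₀ z))) z := by
    simp only [div_eq_mul_inv]
    exact (e1.fun_mul e2).const_mul _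
  exact (e3.fun_pow 2).ccos.fun_mul (e4.fun_neg).cexp

lemma not_summable (h0 : ‖e₀‖ = 1) (h1 : ‖e₁‖ = 1) (h01 : inner ℂ e₀ e₁ = 0) (hs : 0 < s) :
    ¬ Summable (fun a : (pt e₀ e₁ '' Lam s : Set E) => 1 - ‖(a : E)‖ ^ 2) := by
  intro hsum
  let g : ℕ → (pt e₀ e₁ '' Lam s : Set E) :=
    fun k => ⟨pt e₀ e₁ (root s k), ⟨root s k, root_mem hs k, rfl⟩⟩
  have hg : ∀ k, 1 - ‖((g k : (pt e₀ e₁ '' Lam s : Set E)) : E)‖ ^ 2 =
      1 / (1 + (2 * k + 1) * Real.pi / 2 / s ^ 2) := by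
    intro k
    simp only [g]
    rw [one_sub_norm_pt_sq h0 h1 h01, root_norm_sq]
  have hp := Real.pi_pos
  have ginj : Function.Injective g := by
    intro j k hjk
    have h2 := hg j
    rw [hjk, hg k] at h2
    have h3 : (0 : ℝ) < 1 + (2 * k + 1) * Real.pi / 2 / s ^ 2 := by positivity
    have h4 : (0 : ℝ) < 1 + (2 * j + 1) * Real.pi / 2 / s ^ 2 := by positivity
    rw [div_eq_div_iff h3.ne' h4.ne'] at h2
    have h6 : (2 * (j : ℝ) + 1) * Real.pi / 2 / s ^ 2 = (2 * k + 1) * Real.pi / 2 / s ^ 2 := by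
      linarith
    have h7 : (j : ℝ) = k := by
      field_simp at h6
      linarith
    exact_mod_cast h7
  have h5 := hsum.comp_injective ginj
  have h6 : ((fun a : (pt e₀ e₁ '' Lam s : Set E) => 1 - ‖(a : E)‖ ^ 2) ∘ g) =
      fun k : ℕ => 1 / (1 + (2 * (k : ℝ) + 1) * Real.pi / 2 / s ^ 2) := by
    funext k
    simp only [Function.comp]
    exact hg k
  rw [h6] at h5
  have h7 : Summable (fun k : ℕ => (1 / ((k : ℝ) + 1))) := by
    have h8 := h5.mul_left (1 + Real.pi / s ^ 2)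
    refine Summable.of_nonneg_of_le (fun k => by positivity) (fun k => ?_) h8
    have hk : (0 : ℝ) ≤ k := Nat.cast_nonneg k
    have hq : 0 < Real.pi / s ^ 2 := by positivity
    have e : (2 * (k : ℝ) + 1) * Real.pi / 2 / s ^ 2 = (2 * k + 1) / 2 * (Real.pi / s ^ 2) := by
      ring
    rw [e, mul_one_div, div_le_div_iff₀ (by positivity) (by positivity)]
    nlinarith
  have h9 : ¬ Summable (fun k : ℕ => (1 / ((k : ℝ) + 1))) := by
    have := Real.not_summable_one_div_natCast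
    rw [← summable_nat_add_iff 1] at this
    simpa using this
  exact h9 h7

/-- The wedge conditions. -/
lemma wedge_cond (h0 : ‖e₀‖ = 1) (h1 : ‖e₁‖ = 1) (h01 : inner ℂ e₀ e₁ = 0) {c : ℝ} (hc : 0 < c)
    (hs : 0 < s) (hsc : s * c ≤ 1) {q : ℝ} (hq : 1 / 2 ≤ q) {a : E}
    (ha : a ∈ pt e₀ e₁ '' Lam s) :
    a ∈ Metric.ball (0 : E) 1 ∧ |(1 - inner ℂ e₀ a).im| ≤ c * (1 - inner ℂ e₀ a).re ∧
        ‖a‖ ^ 2 - ‖inner ℂ e₀ a‖ ^ 2 ≤ q * (1 - ‖inner ℂ e₀ a‖ ^ 2) ∧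
        (1 - inner ℂ e₀ a).re ≤ 1 / (c ^ 2 + 1) := by
  obtain ⟨l, hl, rfl⟩ := ha
  have h := pos_aux l
  have hl1 := Lam_norm hl
  refine ⟨?_, ?_⟩
  · rw [mem_ball_zero_iff]
    have h1 := one_sub_norm_pt_sq h0 h1 h01 l
    have h2 : 0 < 1 / (1 + ‖l‖ ^ 2) := by positivity
    nlinarith [norm_nonneg (pt e₀ e₁ l)]
  · have hcl : c ^ 2 ≤ ‖l‖ ^ 2 := by
      have h2 : s ^ 2 * c ^ 2 ≤ s ^ 2 * ‖l‖ ^ 2 := by
        refine le_trans ?_ hl1
        rw [← mul_pow]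
        exact pow_le_one₀ (by positivity) hsc
      exact le_of_mul_le_mul_left h2 (by positivity)
    have e0 : (1 : ℂ) - ((‖l‖ ^ 2 / (1 + ‖l‖ ^ 2) : ℝ) : ℂ) = ((1 / (1 + ‖l‖ ^ 2) : ℝ) : ℂ) := by
      rw [← Complex.ofReal_one, ← Complex.ofReal_sub]
      congr 1
      field_simp
      ring
    rw [inner_zero_pt h0 h01, e0, Complex.ofReal_re, Complex.ofReal_im, Complex.norm_real,
      Real.norm_eq_abs, sq_abs, norm_pt_sq h0 h1 h01]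
    refine ⟨?_, ?_, ?_⟩
    · rw [abs_zero]
      positivity
    · rw [← sub_nonneg]
      have : q * (1 - (‖l‖ ^ 2 / (1 + ‖l‖ ^ 2)) ^ 2) -
          (‖l‖ ^ 2 / (1 + ‖l‖ ^ 2) - (‖l‖ ^ 2 / (1 + ‖l‖ ^ 2)) ^ 2) =
          ((q - 1 / 2) * (1 + 2 * ‖l‖ ^ 2) + 1 / 2) / (1 + ‖l‖ ^ 2) ^ 2 := by
        field_simp
        ring
      rw [this]
      have h3 : 0 ≤ q - 1 / 2 := by linarith
      positivity
    · rw [div_le_div_iff₀ (by positivity) (by positivity)]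
      linarith

end

end Pool.Agent.Work.MP_90924b_an
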